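import Pool.Agent.helper58.ZB.SpecN

/-!
# Row zn:BPT (MP_baa4d7_al): integrality at `p` in the T-form
-/

set_option autoImplicit false

namespace Pool.Agent.GB

open Pool.Agent.helper58.DC Pool.Agent.DI Pool.Agent.GR Pool.Agent.OB Pool.Agent.DR Pool.Agent.FI Pool.Agent.FI3 Pool.Agent.FI4 Pool.Agent.LE Pool.Agent.BR

/-- **BPT**. -/
theorem BPT (hBPZ : BPZ_stmt) (_hCIT : CIT_stmt) : BPT_stmt := by
  intro p M hS G _ _ D T x θ χ hZ l ψ hψ ψ' hψ'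
  have h1 := IntAt.mul hS (IntAt.natCast hS (T.relIndex D)) (hBPZ p M hS G D T x θ χ hZ l ψ hψ ψ' hψ')
  have e : nlT p M D T θ l ψ ψ' = (T.relIndex D : ℂ) * nlZ p M D T θ l ψ ψ' := by
    unfold nlT nlZ
    ring
  rwa [e]

end Pool.Agent.GB
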