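import Pool.Agent.helper58.ZB.SpecN
import Pool.Agent.helper12.NA.GM4

/-!
# Row zn:GMB (MP_baa4d7_al): existence of the exponent `m`, all primes
-/

set_option autoImplicit false

namespace Pool.Agent.GB

open Pool.Agent.helper58.DC Pool.Agent.DI Pool.Agent.GR Pool.Agent.OB Pool.Agent.DR Pool.Agent.FI Pool.Agent.FI3 Pool.Agent.FI4 Pool.Agent.LE Pool.Agent.BR

/-- **GMB**. -/
theorem GMB (hGM2 : GM2_stmt) : GMB_stmt := by
  intro p n hp hn
  by_cases h : p = 2
  · subst h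
    obtain ⟨m, hm⟩ := GM4 n hn
    refine ⟨m, hm.cop, hm.reg, hm.one, fun s hs => hm.gen s ?_⟩
    have e : (2 : ℕ) ^ bb 2 = 4 := by
      rw [bb, if_pos rfl]
      norm_num
    rwa [e] at hs
  · obtain ⟨m, hm⟩ := hGM2 p n hp h hn
    refine ⟨m, hm.cop, hm.reg, hm.one, fun s hs => hm.gen s ?_⟩
    rwa [bb, if_neg h, pow_one] at hs

end Pool.Agent.GB
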